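import Pool.Agent.Helper21K9.Mah.Final
import Pool.Agent.H326R2.Pi.Top

/-!
# All words of digits in small multiples of `π`

Mahler (1973) proved that for every irrational `α` and every word of `k` digits some multiple `m α` contains the word
infinitely often, and Berend and Boshernitzan (1994) proved that `m < 2 b^k` suffices. For `π` we prove a version with
all words at one and the same place, and with explicit bounds for these places. By a theorem of Wall the number `π` is
normal in base `b` if and only if one (or all) of the numbers `x + m π`, `x` rational, `m ≥ 1`, is normal in base `b`.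

The proof: let `r` be the best approximation of `b^N π` by a fraction with denominator at most `b^k`. With growing `i`
the number `b^i r` has no larger denominator, and the distance `δ` from `d b^(N+i) π` to the nearest integer, `d` the
denominator of `b^i r`, grows by a factor at most `b` in every step, so that there is an `i` with
`b^(-k-1) ≤ δ < b^(-k)`; by the irrationality measure of `π` it is small. For the place `j = N + i` the multiples
`m b^j π`, `m < d + 1 / δ`, leave no gap longer than `b^(-k)`.
-/

set_option autoImplicit false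

open Finset

namespace Pool.Agent.Helper21K9.Mah.AllWords

/-- small denominators -/
theorem small_den (x : ℝ) (hx : Irrational x) (n : ℕ) :
    ∃ c : ℝ, 0 < c ∧ ∀ q : ℕ, 1 ≤ q → q < n → ∀ p : ℤ, c ≤ |q * x - p| := by
  induction n with
  | zero => exact ⟨1, one_pos, fun q _ h => absurd h (Nat.not_lt_zero q)⟩
  | succ n ih =>
    obtain ⟨c, hc, h⟩ := ih
    rcases Nat.eq_zero_or_pos n with hn | hn
    · exact ⟨1, one_pos, fun q h1 h2 => by omega⟩
    · have hirr : Irrational ((n : ℝ) * x) := hx.natCast_mul (by omega)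
      have hpos : 0 < |(n : ℝ) * x - round ((n : ℝ) * x)| := by
        rw [abs_pos, sub_ne_zero]
        exact hirr.ne_int _
      refine ⟨min c |(n : ℝ) * x - round ((n : ℝ) * x)|, lt_min hc hpos, fun q h1 h2 p => ?_⟩
      rcases Nat.lt_succ_iff_lt_or_eq.1 h2 with h3 | h3
      · exact (min_le_left _ _).trans (h q h1 h3 p)
      · rw [h3]
        exact (min_le_right _ _).trans (round_le _ _)

/-- the irrationality measure of `π` for all denominators -/
theorem pi_measure : ∃ c : ℝ, 0 < c ∧ c ≤ 1 ∧ ∀ q : ℕ, 1 ≤ q → ∀ p : ℤ,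
    c ≤ (q : ℝ) ^ (5.05 : ℝ) * |q * Real.pi - p| := by
  obtain ⟨q0, hq0⟩ := Pool.Agent.H326R2.Pi.main
  obtain ⟨c, hc, hsm⟩ := small_den Real.pi irrational_pi q0
  refine ⟨min c 1, lt_min hc one_pos, min_le_right _ _, fun q hq p => ?_⟩
  have hqR : (1 : ℝ) ≤ q := by exact_mod_cast hq
  have hq0R : (0 : ℝ) < q := by linarith
  rcases lt_or_ge q q0 with h | h
  · refine (min_le_left _ _).trans ((hsm q hq h p).trans ?_)
    have h1 : (1 : ℝ) ≤ (q : ℝ) ^ (5.05 : ℝ) := Real.one_le_rpow hqR (by norm_num)
    nlinarith [abs_nonneg ((q : ℝ) * Real.pi - p)]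
  · refine (min_le_right _ _).trans ?_
    have h1 := hq0 q h p
    have e1 : |Real.pi - p / q| = |q * Real.pi - p| / q := by
      rw [← abs_of_pos hq0R, ← abs_div, abs_of_pos hq0R]
      congr 1
      field_simp
    rw [e1, le_div_iff₀ hq0R] at h1
    have h2 : (1 : ℝ) = (q : ℝ) ^ (5.05 : ℝ) * ((q : ℝ) ^ (-(6.05 : ℝ)) * q) := by
      have e2 : (q : ℝ) ^ (-(6.05 : ℝ)) * q = (q : ℝ) ^ (-(5.05 : ℝ)) := by
        rw [show (-(5.05 : ℝ)) = -(6.05 : ℝ) + 1 by norm_num, Real.rpow_add hq0R, Real.rpow_one]
      rw [e2, ← Real.rpow_add hq0R]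
      norm_num
    rw [h2]
    exact mul_le_mul_of_nonneg_left h1 (by positivity)

/-- **All words of digits in small multiples of `π`.** There is a constant `C` with the following
properties. (1) For every base `b ≥ 2`, every length `k` and every `N` there is a place `j` with
`N ≤ j ≤ 6.05 N + 5.05 k + C` at which all words of `k` digits stand in small multiples of `π`,
even after an arbitrary translation: for every real number `x` and every word (of value `W < b^k`)
there is an `m < (b + 1) b^k` such that the word stands in `x + m π` right after the `j`-th digit.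
(2) For every base `b ≥ 2`, every real `x` and every word of `k` digits: among the first `X` digits
of the numbers `x + m π`, `0 ≤ m < (b + 1) b^k`, the word occurs, all occurrences together, at
least `T` times whenever `X ≥ C (k + 1) 6.05^T`. The word of value `W` stands in `y` right after the
`j`-th digit if and only if `⌊b^(j+k) y⌋ mod b^k = W`. -/
theorem all_words : ∃ C : ℝ,
    (∀ b k N : ℕ, 2 ≤ b → ∃ j : ℕ, N ≤ j ∧ (j : ℝ) ≤ 6.05 * N + 5.05 * k + C ∧
      ∀ (x : ℝ) (W : ℕ), W < b ^ k → ∃ m : ℕ, m < (b + 1) * b ^ k ∧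
        ⌊(b : ℝ) ^ (j + k) * (x + m * Real.pi)⌋ % ((b : ℤ) ^ k) = (W : ℤ)) ∧
    (∀ b k : ℕ, 2 ≤ b → ∀ (x : ℝ) (W : ℕ), W < b ^ k → ∀ T X : ℕ,
      C * (k + 1) * (6.05 : ℝ) ^ T ≤ X →
      T ≤ ∑ m ∈ range ((b + 1) * b ^ k), ((range X).filter fun j : ℕ =>
        ⌊(b : ℝ) ^ (j + k) * (x + m * Real.pi)⌋ % ((b : ℤ) ^ k) = (W : ℤ)).card) := by
  obtain ⟨c, hc, hc1, hm⟩ := pi_measure
  set L : ℝ := Real.log (1 / c) / Real.log 2 with hL
  have hL0 : 0 ≤ L := div_nonneg (Real.log_nonneg (by rw [le_div_iff₀ hc]; linarith))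
    (Real.log_nonneg (by norm_num))
  refine ⟨L + 2, ?_, ?_⟩
  · intro b k N hb
    obtain ⟨j, h1, h2, h3⟩ := Pool.Agent.Helper21K9.Mah.place Real.pi 5.05 c (by norm_num) hc hc1
      hm b k hb N
    refine ⟨j, h1, ?_, h3⟩
    rw [← hL] at h2
    linarith
  · intro b k hb x W hW T X hX
    have h := Pool.Agent.Helper21K9.Mah.count Real.pi 5.05 c (by norm_num) hc hc1 hm b k hb x W hW
      T X (by
        rw [← hL]
        refine le_trans ?_ hX
        have h1 : (5.05 : ℝ) + 1 = 6.05 := by norm_num
        rw [h1]
        apply mul_le_mul_of_nonneg_right _ (by positivity)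
        have h2 : (L + 1) / 5.05 ≤ L + 1 := div_le_self (by linarith) (by norm_num)
        have h3 : (0 : ℝ) ≤ k := Nat.cast_nonneg k
        nlinarith)
    exact_mod_cast h

end Pool.Agent.Helper21K9.Mah.AllWords
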