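import Mathlib

/-!
# Words of digits in small multiples of a number with a measure of irrationality
-/

set_option autoImplicit false

namespace Pool.Agent.Helper21K9.Mah

/-- solving `r P ≡ A` modulo `d` -/
lemma exists_res (d : ℕ) (hd : 1 ≤ d) (P A : ℤ) (hco : IsCoprime P (d : ℤ)) :
    ∃ (r : ℕ) (z : ℤ), r < d ∧ (r : ℤ) * P = A + d * z := by
  obtain ⟨u, v, huv⟩ := hco
  have hd0 : (0 : ℤ) < d := by exact_mod_cast hd
  refine ⟨((A * u) % d).toNat, ?_⟩
  have h1 : 0 ≤ (A * u) % d := Int.emod_nonneg _ hd0.ne'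
  have h2 : (A * u) % d < d := Int.emod_lt_of_pos _ hd0
  have h3 : (((A * u) % d).toNat : ℤ) = (A * u) % d := Int.toNat_of_nonneg h1
  refine ⟨-(A * v) - (A * u) / d * P, by omega, ?_⟩
  rw [h3]
  have h4 : (A * u) % d = A * u - d * ((A * u) / d) := by
    have := Int.emod_add_mul_ediv (A * u) d
    linarith
  rw [h4]
  linear_combination (-A) * huv + (2 * A) * huv

/-- the multiples of a number close to a fraction with a small denominator -/
theorem dense_mult (b k : ℕ) (hb : 2 ≤ b) (θ : ℝ) (P : ℤ) (d : ℕ) (hd : 1 ≤ d) (hdk : d ≤ b ^ k)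
    (hco : IsCoprime P (d : ℤ)) (h1 : 1 / (b : ℝ) ^ (k + 1) ≤ |d * θ - P|)
    (h2 : |d * θ - P| < 1 / (b : ℝ) ^ k) (x : ℝ) (W : ℕ) :
    ∃ (m : ℕ) (z : ℤ), m < (b + 1) * b ^ k ∧ (W : ℝ) / (b : ℝ) ^ k ≤ x + m * θ - z ∧
      x + m * θ - z < ((W : ℝ) + 1) / (b : ℝ) ^ k := by
  have hb0 : (0 : ℝ) < b := by exact_mod_cast (by omega : 0 < b)
  have hbk : (0 : ℝ) < (b : ℝ) ^ k := by positivity
  have hbk1 : (0 : ℝ) < (b : ℝ) ^ (k + 1) := by positivity
  have hdR : (1 : ℝ) ≤ d := by exact_mod_cast hd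
  have hd0 : (0 : ℝ) < d := by linarith
  have hdkR : (d : ℝ) ≤ (b : ℝ) ^ k := by exact_mod_cast hdk
  set e : ℝ := d * θ - P with he
  set δ : ℝ := |e| with hδ
  have hδ0 : 0 < δ := lt_of_lt_of_le (by positivity) h1
  have hinv : 1 / δ ≤ (b : ℝ) ^ (k + 1) := by
    rw [div_le_iff₀ hδ0]
    rw [div_le_iff₀ hbk1] at h1
    linarith
  have hsplit : ((W : ℝ) + 1) / (b : ℝ) ^ k = W / (b : ℝ) ^ k + 1 / (b : ℝ) ^ k := by ring
  have hcast : (((b + 1) * b ^ k : ℕ) : ℝ) = (b : ℝ) ^ (k + 1) + (b : ℝ) ^ k := by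
    push_cast; ring
  -- the bound for `m`
  have key : ∀ (r t : ℕ) (D : ℝ), d * D < 1 - r * δ → (t : ℝ) ≤ D / δ + 1 →
      r + t * d < (b + 1) * b ^ k := by
    intro r t D h3 h4
    have h5 : (t : ℝ) * d ≤ (D / δ + 1) * d := mul_le_mul_of_nonneg_right h4 hd0.le
    have h6 : (D / δ + 1) * d = (d * D) / δ + d := by ring
    have h7 : (d * D) / δ < (1 - r * δ) / δ := div_lt_div_of_pos_right h3 hδ0
    have h8 : (1 - r * δ) / δ = 1 / δ - r := by field_simp
    have h9 : ((r + t * d : ℕ) : ℝ) < (((b + 1) * b ^ k : ℕ) : ℝ) := by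
      rw [hcast]; push_cast; linarith
    exact_mod_cast h9
  rcases lt_or_ge e 0 with hneg | hpos
  · -- `θ` is smaller than the fraction
    have heδ : e = -δ := by rw [hδ, abs_of_neg hneg]; ring
    set Y : ℝ := ((W : ℝ) + 1) / (b : ℝ) ^ k with hY
    set A : ℤ := ⌈d * (Y - x)⌉ with hA
    have hA1 : d * (Y - x) ≤ A := Int.le_ceil _
    have hA2 : (A : ℝ) < d * (Y - x) + 1 := Int.ceil_lt_add_one _
    obtain ⟨r, z0, hr, hrz⟩ := exists_res d hd P A hco
    have hrR : (r : ℝ) < d := by exact_mod_cast hr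
    have hrzR : (r : ℝ) * P = A + d * z0 := by exact_mod_cast hrz
    have hr0 : (0 : ℝ) ≤ r := Nat.cast_nonneg r
    set st : ℝ := x + r * θ - z0 with hst
    have hst' : d * (st - x) = A - r * δ := by
      have : d * θ = P - δ := by linarith
      rw [hst]
      linear_combination (r : ℝ) * this + hrzR
    by_cases hc : st < Y
    · refine ⟨r, z0, ?_, ?_, ?_⟩
      · have := key r 0 0 (by
          have h3 : (r : ℝ) * δ < d * (1 / (b : ℝ) ^ k) := by
            apply mul_lt_mul'' hrR h2 hr0 hδ0.le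
          have h4 : (d : ℝ) * (1 / (b : ℝ) ^ k) ≤ 1 := by
            rw [mul_one_div, div_le_one hbk]; exact hdkR
          linarith) (by push_cast; positivity)
        simpa using this
      · have h3 : d * (st - W / (b : ℝ) ^ k) > 0 := by
          have h4 : d * (W / (b : ℝ) ^ k - x) = d * (Y - x) - d * (1 / (b : ℝ) ^ k) := by
            rw [hsplit]; ring
          have h5 : (r : ℝ) * δ < d * (1 / (b : ℝ) ^ k) := by
            apply mul_lt_mul'' hrR h2 hr0 hδ0.le
          nlinarith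
        have h4 : 0 < st - W / (b : ℝ) ^ k := by
          by_contra hcon
          push Not at hcon
          nlinarith
        linarith
      · exact hc
    · push Not at hc
      set D : ℝ := st - Y with hD
      have hD0 : 0 ≤ D := by linarith
      have hdD : d * D < 1 - r * δ := by
        have : d * D = d * (st - x) - d * (Y - x) := by rw [hD]; ring
        rw [this, hst']; linarith
      set t : ℕ := ⌊D / δ⌋₊ + 1 with ht
      have ht1 : (t : ℝ) ≤ D / δ + 1 := by
        rw [ht]; push_cast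
        have := Nat.floor_le (div_nonneg hD0 hδ0.le)
        linarith
      have ht2 : D / δ < t := by
        rw [ht]; push_cast; exact Nat.lt_floor_add_one _
      have ht3 : D < t * δ := by rwa [div_lt_iff₀ hδ0] at ht2
      have ht4 : t * δ ≤ D + δ := by
        have := mul_le_mul_of_nonneg_right ht1 hδ0.le
        have h5 : (D / δ + 1) * δ = D + δ := by field_simp
        linarith
      refine ⟨r + t * d, z0 + t * P, key r t D hdD ht1, ?_, ?_⟩
      · have h5 : x + ((r + t * d : ℕ) : ℝ) * θ - ((z0 + t * P : ℤ) : ℝ) = st - t * δ := by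
          push_cast
          have : (d : ℝ) * θ - P = -δ := by linarith
          rw [hst]
          linear_combination (t : ℝ) * this
        rw [h5]
        have h6 : Y = W / (b : ℝ) ^ k + 1 / (b : ℝ) ^ k := hsplit
        linarith
      · have h5 : x + ((r + t * d : ℕ) : ℝ) * θ - ((z0 + t * P : ℤ) : ℝ) = st - t * δ := by
          push_cast
          have : (d : ℝ) * θ - P = -δ := by linarith
          rw [hst]
          linear_combination (t : ℝ) * this
        rw [h5]
        linarith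
  · have heδ : e = δ := by rw [hδ, abs_of_nonneg hpos]
    set y : ℝ := (W : ℝ) / (b : ℝ) ^ k with hy
    set A : ℤ := ⌊d * (y - x)⌋ with hA
    have hA1 : (A : ℝ) ≤ d * (y - x) := Int.floor_le _
    have hA2 : d * (y - x) < A + 1 := Int.lt_floor_add_one _
    obtain ⟨r, z0, hr, hrz⟩ := exists_res d hd P A hco
    have hrR : (r : ℝ) < d := by exact_mod_cast hr
    have hrzR : (r : ℝ) * P = A + d * z0 := by exact_mod_cast hrz
    have hr0 : (0 : ℝ) ≤ r := Nat.cast_nonneg r
    set st : ℝ := x + r * θ - z0 with hst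
    have hst' : d * (st - x) = A + r * δ := by
      have : d * θ = P + δ := by linarith
      rw [hst]
      linear_combination (r : ℝ) * this + hrzR
    by_cases hc : y ≤ st
    · refine ⟨r, z0, ?_, hc, ?_⟩
      · have := key r 0 0 (by
          have h3 : (r : ℝ) * δ < d * (1 / (b : ℝ) ^ k) := by
            apply mul_lt_mul'' hrR h2 hr0 hδ0.le
          have h4 : (d : ℝ) * (1 / (b : ℝ) ^ k) ≤ 1 := by
            rw [mul_one_div, div_le_one hbk]; exact hdkR
          linarith) (by push_cast; positivity)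
        simpa using this
      · have h5 : (r : ℝ) * δ < d * (1 / (b : ℝ) ^ k) := by
            apply mul_lt_mul'' hrR h2 hr0 hδ0.le
        have h3 : d * (st - ((W : ℝ) + 1) / (b : ℝ) ^ k) < 0 := by
          rw [hsplit]
          have h4 : d * (st - (y + 1 / (b : ℝ) ^ k)) =
              d * (st - x) - d * (y - x) - d * (1 / (b : ℝ) ^ k) := by ring
          rw [h4, hst']
          linarith
        have h4 : st - ((W : ℝ) + 1) / (b : ℝ) ^ k < 0 := by
          by_contra hcon
          push Not at hcon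
          nlinarith
        linarith
    · push Not at hc
      set D : ℝ := y - st with hD
      have hD0 : 0 < D := by linarith
      have hdD : d * D < 1 - r * δ := by
        have : d * D = d * (y - x) - d * (st - x) := by rw [hD]; ring
        rw [this, hst']; linarith
      set t : ℕ := ⌈D / δ⌉₊ with ht
      have ht1 : (t : ℝ) ≤ D / δ + 1 := (Nat.ceil_lt_add_one (div_nonneg hD0.le hδ0.le)).le
      have ht1' : (t : ℝ) < D / δ + 1 := Nat.ceil_lt_add_one (div_nonneg hD0.le hδ0.le)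
      have ht2 : D / δ ≤ t := Nat.le_ceil _
      have ht3 : D ≤ t * δ := by rwa [div_le_iff₀ hδ0] at ht2
      have ht4 : t * δ < D + δ := by
        have := mul_lt_mul_of_pos_right ht1' hδ0
        have h5 : (D / δ + 1) * δ = D + δ := by field_simp
        linarith
      have h5 : x + ((r + t * d : ℕ) : ℝ) * θ - ((z0 + t * P : ℤ) : ℝ) = st + t * δ := by
        push_cast
        have : (d : ℝ) * θ - P = δ := by linarith
        rw [hst]
        linear_combination (t : ℝ) * this
      refine ⟨r + t * d, z0 + t * P, key r t D hdD ht1, ?_, ?_⟩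
      · rw [h5]; linarith
      · rw [h5, hsplit]; linarith

/-- the place -/
theorem exists_place (ξ κ c : ℝ) (hκ : 0 ≤ κ) (hc : 0 < c) (hc1 : c ≤ 1)
    (hm : ∀ q : ℕ, 1 ≤ q → ∀ p : ℤ, c ≤ (q : ℝ) ^ κ * |q * ξ - p|)
    (b k : ℕ) (hb : 2 ≤ b) (N : ℕ) :
    ∃ j : ℕ, N ≤ j ∧ (j : ℝ) ≤ N + κ * (N + k) + Real.log (1 / c) / Real.log 2 ∧
      ∃ (d : ℕ) (P : ℤ), 1 ≤ d ∧ d ≤ b ^ k ∧ IsCoprime P (d : ℤ) ∧
        1 / (b : ℝ) ^ (k + 1) ≤ |d * ((b : ℝ) ^ j * ξ) - P| ∧
        |d * ((b : ℝ) ^ j * ξ) - P| < 1 / (b : ℝ) ^ k := by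
  have hbR : (2 : ℝ) ≤ b := by exact_mod_cast hb
  have hb0 : (0 : ℝ) < b := by linarith
  obtain ⟨r, hr1, hr2⟩ := Real.exists_rat_abs_sub_le_and_den_le ((b : ℝ) ^ N * ξ)
    (n := b ^ k) (by positivity)
  set η : ℝ := |(b : ℝ) ^ N * ξ - r| with hη
  have hden1 : (1 : ℝ) ≤ r.den := by exact_mod_cast r.pos
  have hden0 : (0 : ℝ) < r.den := by linarith
  -- lower bound for `η`
  have hlow : c ≤ ((b : ℝ) ^ (N + k)) ^ κ * ((b : ℝ) ^ k * η) := by
    have h1 := hm (r.den * b ^ N) (Nat.one_le_iff_ne_zero.2 (by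
      have := r.pos
      positivity)) r.num
    have h2 : |((r.den * b ^ N : ℕ) : ℝ) * ξ - r.num| = r.den * η := by
      have h3 : (r.den : ℝ) * (r : ℝ) = r.num := by
        have := Rat.den_mul_eq_num r
        exact_mod_cast this
      have e1 : (r.den : ℝ) * |(b : ℝ) ^ N * ξ - r| = |(r.den : ℝ) * ((b : ℝ) ^ N * ξ - r)| := by
        rw [abs_mul, abs_of_pos hden0]
      rw [hη, e1]
      congr 1
      push_cast
      rw [mul_sub, h3]; ring
    rw [h2] at h1
    refine h1.trans ?_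
    have h4 : ((r.den * b ^ N : ℕ) : ℝ) ≤ (b : ℝ) ^ (N + k) := by
      push_cast
      rw [pow_add, mul_comm]
      apply mul_le_mul_of_nonneg_left _ (by positivity)
      exact_mod_cast hr2
    have h5 : ((r.den * b ^ N : ℕ) : ℝ) ^ κ ≤ ((b : ℝ) ^ (N + k)) ^ κ :=
      Real.rpow_le_rpow (by positivity) h4 hκ
    have h6 : (r.den : ℝ) * η ≤ (b : ℝ) ^ k * η := by
      apply mul_le_mul_of_nonneg_right _ (abs_nonneg _)
      exact_mod_cast hr2
    exact mul_le_mul h5 h6 (by positivity) (by positivity)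
  have hη0 : 0 < η := by
    rcases (abs_nonneg ((b : ℝ) ^ N * ξ - r)).lt_or_eq with h | h
    · exact h
    · exfalso
      have h' : η = 0 := by rw [hη]; exact h.symm
      rw [h', mul_zero, mul_zero] at hlow
      linarith
  -- denominators of `b ^ i r`
  set dn : ℕ → ℕ := fun i => ((b : ℚ) ^ i * r).den with hdn
  have hdn_step : ∀ i, dn (i + 1) ≤ dn i := by
    intro i
    have h1 : ((b : ℚ) ^ (i + 1) * r) = (b : ℚ) * ((b : ℚ) ^ i * r) := by ring
    have h2 := Rat.mul_den_dvd (b : ℚ) ((b : ℚ) ^ i * r)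
    rw [Rat.den_natCast, one_mul] at h2
    simp only [hdn]
    rw [h1]
    exact Nat.le_of_dvd (Rat.pos _) h2
  have hdn0 : dn 0 = r.den := by simp [hdn]
  have hdn_le : ∀ i, dn i ≤ r.den := by
    intro i
    induction i with
    | zero => rw [hdn0]
    | succ i ih => exact (hdn_step i).trans ih
  have hdn_pos : ∀ i, (1 : ℝ) ≤ dn i := by
    intro i
    exact_mod_cast Rat.pos _
  -- the place
  have hex : ∃ i : ℕ, 1 / (b : ℝ) ^ (k + 1) ≤ dn i * ((b : ℝ) ^ i * η) := by
    obtain ⟨i, hi⟩ := pow_unbounded_of_one_lt (1 / (b : ℝ) ^ (k + 1) / η) (by linarith : (1 : ℝ) < b)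
    refine ⟨i, ?_⟩
    rw [div_lt_iff₀ hη0] at hi
    have h1 : 0 ≤ (b : ℝ) ^ i * η := by positivity
    nlinarith [hdn_pos i]
  classical
  set i : ℕ := Nat.find hex with hi
  have hi1 : 1 / (b : ℝ) ^ (k + 1) ≤ dn i * ((b : ℝ) ^ i * η) := Nat.find_spec hex
  have hi2 : dn i * ((b : ℝ) ^ i * η) < 1 / (b : ℝ) ^ k := by
    rcases Nat.eq_zero_or_pos i with h0 | h0
    · rw [h0, hdn0, pow_zero, one_mul]
      have h1 : (r.den : ℝ) * η ≤ 1 / ((b : ℝ) ^ k + 1) := by
        have h2 : η ≤ 1 / (((b : ℝ) ^ k + 1) * r.den) := by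
          have := hr1
          push_cast at this
          exact this
        calc (r.den : ℝ) * η ≤ r.den * (1 / (((b : ℝ) ^ k + 1) * r.den)) :=
              mul_le_mul_of_nonneg_left h2 hden0.le
          _ = 1 / ((b : ℝ) ^ k + 1) := by field_simp
      refine lt_of_le_of_lt h1 ?_
      apply one_div_lt_one_div_of_lt (by positivity)
      linarith
    · obtain ⟨l, hl⟩ : ∃ l, i = l + 1 := ⟨i - 1, by omega⟩
      have h1 : ¬ (1 / (b : ℝ) ^ (k + 1) ≤ dn l * ((b : ℝ) ^ l * η)) :=
        Nat.find_min hex (by omega)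
      push Not at h1
      rw [hl]
      have h2 : (dn (l + 1) : ℝ) ≤ dn l := by exact_mod_cast hdn_step l
      calc (dn (l + 1) : ℝ) * ((b : ℝ) ^ (l + 1) * η)
          ≤ dn l * ((b : ℝ) ^ (l + 1) * η) := mul_le_mul_of_nonneg_right h2 (by positivity)
        _ = b * (dn l * ((b : ℝ) ^ l * η)) := by ring
        _ < b * (1 / (b : ℝ) ^ (k + 1)) := mul_lt_mul_of_pos_left h1 hb0
        _ = 1 / (b : ℝ) ^ k := by rw [pow_succ]; field_simp
  refine ⟨N + i, by omega, ?_, dn i, ((b : ℚ) ^ i * r).num, ?_, ?_, ?_, ?_⟩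
  · -- the bound for the place
    push_cast
    have hlc : 0 ≤ Real.log (1 / c) := Real.log_nonneg (by rw [le_div_iff₀ hc]; linarith)
    have hl2 : 0 < Real.log 2 := Real.log_pos (by norm_num)
    rcases Nat.eq_zero_or_pos i with h0 | h0
    · rw [h0]
      push_cast
      have h1 : 0 ≤ κ * ((N : ℝ) + k) := by positivity
      have h2 : 0 ≤ Real.log (1 / c) / Real.log 2 := by positivity
      linarith
    · obtain ⟨l, hl⟩ : ∃ l, i = l + 1 := ⟨i - 1, by omega⟩
      have h1 : ¬ (1 / (b : ℝ) ^ (k + 1) ≤ dn l * ((b : ℝ) ^ l * η)) :=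
        Nat.find_min hex (by omega)
      push Not at h1
      have h2 : (b : ℝ) ^ l * η < 1 / (b : ℝ) ^ (k + 1) := by
        refine lt_of_le_of_lt ?_ h1
        have h3 : 0 ≤ (b : ℝ) ^ l * η := by positivity
        nlinarith [hdn_pos l]
      have h3 : c * (b : ℝ) ^ i < ((b : ℝ) ^ (N + k)) ^ κ := by
        have h4 : ((b : ℝ) ^ k * η) * (b : ℝ) ^ i < 1 := by
          rw [lt_div_iff₀ (by positivity)] at h2
          rw [hl]
          calc ((b : ℝ) ^ k * η) * (b : ℝ) ^ (l + 1) = (b : ℝ) ^ l * η * (b : ℝ) ^ (k + 1) := by ring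
            _ < 1 := h2
        have hpos : 0 < ((b : ℝ) ^ (N + k)) ^ κ := by positivity
        calc c * (b : ℝ) ^ i ≤ (((b : ℝ) ^ (N + k)) ^ κ * ((b : ℝ) ^ k * η)) * (b : ℝ) ^ i :=
              mul_le_mul_of_nonneg_right hlow (by positivity)
          _ = ((b : ℝ) ^ (N + k)) ^ κ * (((b : ℝ) ^ k * η) * (b : ℝ) ^ i) := by ring
          _ < ((b : ℝ) ^ (N + k)) ^ κ * 1 := mul_lt_mul_of_pos_left h4 hpos
          _ = _ := mul_one _
      have h4 := Real.log_lt_log (by positivity) h3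
      rw [Real.log_mul hc.ne' (by positivity), Real.log_pow, Real.log_rpow (by positivity),
        Real.log_pow] at h4
      have hlb : 0 < Real.log b := Real.log_pos (by linarith)
      have hlb2 : Real.log 2 ≤ Real.log b := Real.log_le_log (by norm_num) hbR
      have h5 : Real.log (1 / c) = -Real.log c := by rw [one_div, Real.log_inv]
      have h6 : (i : ℝ) * Real.log b < κ * (((N + k : ℕ) : ℝ) * Real.log b) + Real.log (1 / c) := by
        rw [h5]; linarith
      have h7 : (i : ℝ) < κ * (N + k) + Real.log (1 / c) / Real.log b := by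
        rw [← sub_pos] at h6 ⊢
        have h8 : κ * (N + k) + Real.log (1 / c) / Real.log b - i =
            (κ * (((N + k : ℕ) : ℝ) * Real.log b) + Real.log (1 / c) - i * Real.log b) /
              Real.log b := by
          push_cast
          field_simp
        rw [h8]
        exact div_pos h6 hlb
      have h8 : Real.log (1 / c) / Real.log b ≤ Real.log (1 / c) / Real.log 2 :=
        div_le_div_of_nonneg_left hlc hl2 hlb2
      linarith
  · exact_mod_cast Rat.pos _
  · exact (hdn_le i).trans hr2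
  · have h1 := ((b : ℚ) ^ i * r).reduced
    rw [Int.isCoprime_iff_gcd_eq_one]
    simpa [Int.gcd, hdn] using h1
  · have h2 : (dn i : ℝ) * ((b : ℝ) ^ (N + i) * ξ) - (((b : ℚ) ^ i * r).num : ℝ) =
        dn i * ((b : ℝ) ^ i * ((b : ℝ) ^ N * ξ - r)) := by
      have h3 : (dn i : ℝ) * ((b : ℝ) ^ i * r) = ((b : ℚ) ^ i * r).num := by
        have h3q := congrArg (fun t : ℚ => (t : ℝ)) (Rat.den_mul_eq_num ((b : ℚ) ^ i * r))
        simp only [Rat.cast_mul, Rat.cast_natCast, Rat.cast_pow, Rat.cast_intCast] at h3q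
        exact h3q
      rw [← h3, pow_add]; ring
    have h4 : |(dn i : ℝ) * ((b : ℝ) ^ (N + i) * ξ) - (((b : ℚ) ^ i * r).num : ℝ)| =
        dn i * ((b : ℝ) ^ i * η) := by
      rw [h2, abs_mul, abs_mul, abs_of_nonneg (by positivity : (0 : ℝ) ≤ dn i),
        abs_of_nonneg (by positivity : (0 : ℝ) ≤ (b : ℝ) ^ i)]
    rw [h4]
    exact ⟨hi1, hi2⟩

end Pool.Agent.Helper21K9.Mah
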