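import Mathlib
import Pool.Agent.Helper21K9.Mah.Core

set_option autoImplicit false

open Finset

namespace Pool.Agent.Helper21K9.Mah

/-- the word of value `W` and length `k` stands right after the `j`-th digit of `y` -/
def At (b k W : ℕ) (y : ℝ) (j : ℕ) : Prop :=
  ⌊(b : ℝ) ^ (j + k) * y⌋ % ((b : ℤ) ^ k) = (W : ℤ)

lemma at_of (b k W : ℕ) (hb : 2 ≤ b) (hW : W < b ^ k) (y : ℝ) (j : ℕ) (z : ℤ)
    (h1 : (W : ℝ) / (b : ℝ) ^ k ≤ (b : ℝ) ^ j * y - z)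
    (h2 : (b : ℝ) ^ j * y - z < ((W : ℝ) + 1) / (b : ℝ) ^ k) : At b k W y j := by
  have hb0 : (0 : ℝ) < b := by exact_mod_cast (by omega : 0 < b)
  have hbk : (0 : ℝ) < (b : ℝ) ^ k := by positivity
  rw [div_le_iff₀ hbk] at h1
  rw [lt_div_iff₀ hbk] at h2
  have h3 : ⌊(b : ℝ) ^ (j + k) * y⌋ = (W : ℤ) + z * (b : ℤ) ^ k := by
    rw [Int.floor_eq_iff]
    push_cast
    rw [pow_add]
    constructor <;> nlinarith
  unfold At
  rw [h3, Int.add_mul_emod_self_right]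
  exact Int.emod_eq_of_lt (by positivity) (by exact_mod_cast hW)

/-- one place for all words and all shifts -/
theorem place (ξ κ c : ℝ) (hκ : 0 ≤ κ) (hc : 0 < c) (hc1 : c ≤ 1)
    (hm : ∀ q : ℕ, 1 ≤ q → ∀ p : ℤ, c ≤ (q : ℝ) ^ κ * |q * ξ - p|)
    (b k : ℕ) (hb : 2 ≤ b) (N : ℕ) :
    ∃ j : ℕ, N ≤ j ∧ (j : ℝ) ≤ N + κ * (N + k) + Real.log (1 / c) / Real.log 2 ∧
      ∀ (x : ℝ) (W : ℕ), W < b ^ k → ∃ m : ℕ, m < (b + 1) * b ^ k ∧ At b k W (x + m * ξ) j := by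
  obtain ⟨j, h1, h2, d, P, h3, h4, h5, h6, h7⟩ := exists_place ξ κ c hκ hc hc1 hm b k hb N
  refine ⟨j, h1, h2, fun x W hW => ?_⟩
  obtain ⟨m, z, h8, h9, h10⟩ := dense_mult b k hb ((b : ℝ) ^ j * ξ) P d h3 h4 h5 h6 h7
    ((b : ℝ) ^ j * x) W
  refine ⟨m, h8, at_of b k W hb hW _ j z ?_ ?_⟩
  · have : (b : ℝ) ^ j * (x + m * ξ) = (b : ℝ) ^ j * x + m * ((b : ℝ) ^ j * ξ) := by ring
    rw [this]; exact h9
  · have : (b : ℝ) ^ j * (x + m * ξ) = (b : ℝ) ^ j * x + m * ((b : ℝ) ^ j * ξ) := by ring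
    rw [this]; exact h10

/-- the number of occurrences in all the multiples together -/
theorem count (ξ κ c : ℝ) (hκ : 0 < κ) (hc : 0 < c) (hc1 : c ≤ 1)
    (hm : ∀ q : ℕ, 1 ≤ q → ∀ p : ℤ, c ≤ (q : ℝ) ^ κ * |q * ξ - p|)
    (b k : ℕ) (hb : 2 ≤ b) (x : ℝ) (W : ℕ) (hW : W < b ^ k) (T X : ℕ)
    (hX : (k + (Real.log (1 / c) / Real.log 2 + 1) / κ) * (κ + 1) ^ T ≤ X) :
    (T : ℤ) ≤ ∑ m ∈ range ((b + 1) * b ^ k),
      (((range X).filter fun j : ℕ =>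
        ⌊(b : ℝ) ^ (j + k) * (x + m * ξ)⌋ % ((b : ℤ) ^ k) = (W : ℤ)).card : ℤ) := by
  set L : ℝ := Real.log (1 / c) / Real.log 2 with hL
  have hL0 : 0 ≤ L := div_nonneg (Real.log_nonneg (by rw [le_div_iff₀ hc]; linarith))
    (Real.log_nonneg (by norm_num))
  set D : ℝ := k + (L + 1) / κ with hD
  have hD0 : 0 < D := by positivity
  have key : ∀ T : ℕ, ∃ N : ℕ, (N : ℝ) + D ≤ D * (κ + 1) ^ T ∧
      (T : ℤ) ≤ ∑ m ∈ range ((b + 1) * b ^ k),
      (((range N).filter fun j : ℕ =>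
        ⌊(b : ℝ) ^ (j + k) * (x + m * ξ)⌋ % ((b : ℤ) ^ k) = (W : ℤ)).card : ℤ) := by
    intro T
    induction T with
    | zero => exact ⟨0, by simp, by simp⟩
    | succ T ih =>
      obtain ⟨N, h1, h2⟩ := ih
      obtain ⟨j, h3, h4, h5⟩ := place ξ κ c hκ.le hc hc1 hm b k hb N
      obtain ⟨m₀, h6, h7⟩ := h5 x W hW
      refine ⟨j + 1, ?_, ?_⟩
      · push_cast
        have h8 : κ * D = κ * k + (L + 1) := by rw [hD]; field_simp
        have h9 : (j : ℝ) + 1 + D ≤ (κ + 1) * (N + D) := by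
          have : (κ + 1) * (N + D) = κ * N + N + D + (κ * k + (L + 1)) := by
            rw [← h8]; ring
          rw [this]
          linarith
        calc (j : ℝ) + 1 + D ≤ (κ + 1) * (N + D) := h9
          _ ≤ (κ + 1) * (D * (κ + 1) ^ T) := mul_le_mul_of_nonneg_left h1 (by linarith)
          _ = D * (κ + 1) ^ (T + 1) := by ring
      · have h8 : ∀ m ∈ range ((b + 1) * b ^ k),
            (((range N).filter fun j : ℕ =>
              ⌊(b : ℝ) ^ (j + k) * (x + m * ξ)⌋ % ((b : ℤ) ^ k) = (W : ℤ)).card : ℤ) ≤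
            (((range (j + 1)).filter fun j : ℕ =>
              ⌊(b : ℝ) ^ (j + k) * (x + m * ξ)⌋ % ((b : ℤ) ^ k) = (W : ℤ)).card : ℤ) := by
          intro m _
          exact_mod_cast card_le_card (filter_subset_filter _ (range_subset_range.2 (by omega)))
        have h9 : (((range N).filter fun j : ℕ =>
              ⌊(b : ℝ) ^ (j + k) * (x + m₀ * ξ)⌋ % ((b : ℤ) ^ k) = (W : ℤ)).card : ℤ) <
            (((range (j + 1)).filter fun j : ℕ =>
              ⌊(b : ℝ) ^ (j + k) * (x + m₀ * ξ)⌋ % ((b : ℤ) ^ k) = (W : ℤ)).card : ℤ) := by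
          refine Nat.cast_lt.2 (card_lt_card ?_)
          refine ⟨filter_subset_filter _ (range_subset_range.2 (by omega)), fun hsub => ?_⟩
          have h10 : j ∈ (range N).filter fun j : ℕ =>
              ⌊(b : ℝ) ^ (j + k) * (x + m₀ * ξ)⌋ % ((b : ℤ) ^ k) = (W : ℤ) := by
            apply hsub
            rw [mem_filter, mem_range]
            exact ⟨by omega, h7⟩
          rw [mem_filter, mem_range] at h10
          omega
        have h10 := sum_lt_sum h8 ⟨m₀, mem_range.2 h6, h9⟩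
        push_cast
        linarith
  obtain ⟨N, h1, h2⟩ := key T
  have hNX : N ≤ X := by
    have : (N : ℝ) ≤ X := by linarith
    exact_mod_cast this
  refine h2.trans (sum_le_sum fun m _ => ?_)
  exact_mod_cast card_le_card (filter_subset_filter _ (range_subset_range.2 hNX))

/-- some multiple contains the word infinitely often -/
theorem inf_often (ξ κ c : ℝ) (hκ : 0 ≤ κ) (hc : 0 < c) (hc1 : c ≤ 1)
    (hm : ∀ q : ℕ, 1 ≤ q → ∀ p : ℤ, c ≤ (q : ℝ) ^ κ * |q * ξ - p|)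
    (b k : ℕ) (hb : 2 ≤ b) (x : ℝ) (W : ℕ) (hW : W < b ^ k) :
    ∃ m : ℕ, m < (b + 1) * b ^ k ∧ ∀ N : ℕ, ∃ j : ℕ, N ≤ j ∧ At b k W (x + m * ξ) j := by
  by_contra hcon
  push Not at hcon
  choose! f hf using hcon
  set N : ℕ := ∑ m ∈ range ((b + 1) * b ^ k), f m with hN
  obtain ⟨j, h1, h2, h3⟩ := place ξ κ c hκ hc hc1 hm b k hb N
  obtain ⟨m, h4, h5⟩ := h3 x W hW
  have h6 : f m ≤ N := single_le_sum (f := f) (fun _ _ => Nat.zero_le _) (mem_range.2 h4)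
  exact hf m h4 j (by omega) h5

end Pool.Agent.Helper21K9.Mah
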